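import Mathlib

/-!
# MP_a0a64f_co, Q1: any eight points in general position in space can be separated by three planes

`GeneralPosition P` says that no four points of `P` lie on a common plane.  We prove that every
`8`-point set `P` of `ℝ³` in general position is separated by three planes: no point of `P` is on
one of the planes, the complement of the three planes has exactly eight connected components, and
each of them contains exactly one point of `P`.

Idea.  An (oriented) plane is an affine functional `f`; any four points of `P` are an interpolation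
set for affine functionals.  *Rotation*: for `a, b ∈ P` and an even subset `B` of the other points,
there is a plane through `a` and `b` that misses `B` and has half of `B` on each side (rotate a
plane about the line `ab`; the number of points of `B` on its positive side changes one at a time).
*Perturbation*: the points on a plane can be moved to arbitrary sides by a small perturbation.
Rotation with `|B| = 6` gives a plane with four points `A` on one side and four points `B` on the
other.  For every pairing `{i, k}, {i', l}` of `A`, rotating about the line `i i'` and perturbing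
gives a plane that bisects `B`, separates `i` from `k` and `i'` from `l`.  Hence the planes that
bisect both `A` and `B` do not all induce the same pairing of `A`, and likewise for `B`, so two of
them induce different pairings on `A` and different pairings on `B`.  These two planes and the
first one separate `P`.
-/

set_option autoImplicit false

namespace Pool.Agent.Results.MP_a0a64f_co.ThreePlanes

/-- Euclidean `3`-space. -/
abbrev E := EuclideanSpace ℝ (Fin 3)

/-- The plane with normal vector `n` and offset `c`. -/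
def plane (n : E) (c : ℝ) : Set E := {x | inner ℝ n x = c}

/-- No four of the points of `P` lie on a common plane. -/
def GeneralPosition (P : Finset E) : Prop :=
  ∀ Q : Finset E, Q ⊆ P → Q.card = 4 →
    ¬ ∃ (n : E) (c : ℝ), n ≠ 0 ∧ ∀ x ∈ Q, x ∈ plane n c

/-- The compartments of three planes: the connected components of the complement of their
union. -/
def compartments (H : Fin 3 → Set E) : Set (Set E) :=
  {C | ∃ x ∈ (⋃ i, H i)ᶜ, C = connectedComponentIn (⋃ i, H i)ᶜ x}

/-! ### Rotation -/

lemma exists_between_avoid (F : Finset ℝ) {x y : ℝ} (h : x < y) :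
    ∃ t, x < t ∧ t < y ∧ t ∉ F := by
  have hinf : (Set.Ioo x y).Infinite := Set.Ioo_infinite h
  obtain ⟨t, ht, htF⟩ := hinf.exists_notMem_finset F
  exact ⟨t, ht.1, ht.2, htF⟩

/-- Discrete intermediate value statement for a rotating line: `r` are the (distinct) slopes and
`s` says whether the base functional is positive. -/
lemma rot {ι : Type*} [DecidableEq ι] (F : Finset ℝ) (r : ι → ℝ) (s : ι → Prop)
    [DecidablePred s] (B : Finset ι) :
    Set.InjOn r B → ∀ (j : ℕ) (M : ℝ), (∀ b ∈ B, r b < M) →
      (((B.filter s).card ≤ j ∧ j ≤ (B.filter (fun b => ¬ s b)).card) ∨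
        ((B.filter (fun b => ¬ s b)).card ≤ j ∧ j ≤ (B.filter s).card)) →
      ∃ t, t < M ∧ t ∉ F ∧ (∀ b ∈ B, r b ≠ t) ∧
        (B.filter (fun b => (s b ∧ t < r b) ∨ (¬ s b ∧ r b < t))).card = j := by
  classical
  refine Finset.induction_on_max_value r B ?_ ?_
  · intro _ j M _ hj
    obtain ⟨t, _, h2, h3⟩ := exists_between_avoid F (show M - 1 < M by linarith)
    refine ⟨t, h2, h3, by simp, ?_⟩
    simp at hj ⊢
    omega
  · intro a B' haB hmax ih hinj j M hM hj
    have hinj' : Set.InjOn r B' := hinj.mono (by intro x hx; simp at hx ⊢; exact Or.inr hx)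
    have hlt : ∀ b ∈ B', r b < r a := by
      intro b hb
      refine lt_of_le_of_ne (hmax b hb) ?_
      intro he
      have hba : b = a := hinj (by simp [hb]) (by simp) he
      exact haB (hba ▸ hb)
    have haM : r a < M := hM a (Finset.mem_insert_self a B')
    have ih' := ih hinj'
    -- the value just after `r a`
    have hafter : ∃ t, t < M ∧ t ∉ F ∧ (∀ b ∈ insert a B', r b ≠ t) ∧
        ((insert a B').filter (fun b => (s b ∧ t < r b) ∨ (¬ s b ∧ r b < t))).card
          = ((insert a B').filter (fun b => ¬ s b)).card := by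
      obtain ⟨t, h1, h2, h3⟩ := exists_between_avoid F haM
      have hall : ∀ b ∈ insert a B', r b < t := by
        intro b hb
        rcases Finset.mem_insert.1 hb with rfl | hb
        · exact h1
        · exact (hlt b hb).trans h1
      refine ⟨t, h2, h3, fun b hb => (hall b hb).ne, ?_⟩
      congr 1
      apply Finset.filter_congr
      intro b hb
      have := hall b hb
      constructor
      · rintro (⟨_, h⟩ | ⟨h, _⟩)
        · exact absurd h (not_lt.2 this.le)
        · exact h
      · intro h
        exact Or.inr ⟨h, this⟩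
    by_cases hs : s a
    · have hp : ((insert a B').filter s).card = (B'.filter s).card + 1 := by
        rw [Finset.filter_insert, if_pos hs, Finset.card_insert_of_notMem]
        simp [haB]
      have hn : ((insert a B').filter (fun b => ¬ s b)).card
          = (B'.filter (fun b => ¬ s b)).card := by
        rw [Finset.filter_insert, if_neg (not_not.2 hs)]
      rw [hp, hn] at hj
      by_cases hj2 : j = (B'.filter (fun b => ¬ s b)).card
      · obtain ⟨t, h1, h2, h3, h4⟩ := hafter
        refine ⟨t, h1, h2, h3, ?_⟩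
        rw [h4, hn, hj2]
      · obtain ⟨t, h1, h2, h3, h4⟩ := ih' (j - 1) (r a) hlt (by omega)
        refine ⟨t, h1.trans haM, h2, ?_, ?_⟩
        · intro b hb
          rcases Finset.mem_insert.1 hb with rfl | hb
          · exact h1.ne'
          · exact h3 b hb
        · rw [Finset.filter_insert, if_pos (Or.inl ⟨hs, h1⟩), Finset.card_insert_of_notMem, h4]
          · omega
          · simp [haB]
    · have hp : ((insert a B').filter s).card = (B'.filter s).card := by
        rw [Finset.filter_insert, if_neg hs]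
      have hn : ((insert a B').filter (fun b => ¬ s b)).card
          = (B'.filter (fun b => ¬ s b)).card + 1 := by
        rw [Finset.filter_insert, if_pos hs, Finset.card_insert_of_notMem]
        simp [haB]
      rw [hp, hn] at hj
      by_cases hj2 : j = (B'.filter (fun b => ¬ s b)).card + 1
      · obtain ⟨t, h1, h2, h3, h4⟩ := hafter
        refine ⟨t, h1, h2, h3, ?_⟩
        rw [h4, hn, hj2]
      · obtain ⟨t, h1, h2, h3, h4⟩ := ih' j (r a) hlt (by omega)
        refine ⟨t, h1.trans haM, h2, ?_, ?_⟩
        · intro b hb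
          rcases Finset.mem_insert.1 hb with rfl | hb
          · exact h1.ne'
          · exact h3 b hb
        · rw [Finset.filter_insert, if_neg, h4]
          rintro (⟨h, _⟩ | ⟨_, h⟩)
          · exact hs h
          · exact absurd h (not_lt.2 h1.le)

/-! ### Affine functionals -/

/-- Affine functionals on `ℝ³`, coded by normal vector and offset. -/
abbrev V := E × ℝ

/-- The value at `x` of the affine functional `f`. -/
noncomputable def ev (f : V) (x : E) : ℝ := inner ℝ f.1 x - f.2

lemma ev_add (f g : V) (x : E) : ev (f + g) x = ev f x + ev g x := by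
  simp only [ev, Prod.fst_add, Prod.snd_add, inner_add_left]
  ring

lemma ev_smul (t : ℝ) (f : V) (x : E) : ev (t • f) x = t * ev f x := by
  simp only [ev, Prod.smul_fst, Prod.smul_snd, real_inner_smul_left, smul_eq_mul]
  ring

lemma ev_zero (x : E) : ev 0 x = 0 := by simp [ev]

/-- A nonzero affine functional vanishes at no more than three of the points. -/
lemma zeros_le {P : Finset E} (hg : GeneralPosition P) {f : V} (hf : f ≠ 0)
    {Q : Finset E} (hQP : Q ⊆ P) (hQ : ∀ x ∈ Q, ev f x = 0) : Q.card ≤ 3 := by
  by_contra hlt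
  push Not at hlt
  obtain ⟨Q', hQ', hc⟩ := Finset.exists_subset_card_eq (show 4 ≤ Q.card by omega)
  by_cases h1 : f.1 = 0
  · have hne : Q'.Nonempty := by
      rw [← Finset.card_pos]; omega
    obtain ⟨x, hx⟩ := hne
    have h := hQ x (hQ' hx)
    simp only [ev, h1, inner_zero_left, zero_sub, neg_eq_zero] at h
    exact hf (Prod.ext h1 h)
  · refine hg Q' (hQ'.trans hQP) hc ⟨f.1, f.2, h1, ?_⟩
    intro x hx
    have h := hQ x (hQ' hx)
    simp only [ev] at h
    show inner ℝ f.1 x = f.2
    linarith

/-- Four points of `P` are an interpolation set. -/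
lemma interpolate {P : Finset E} (hg : GeneralPosition P) {Q : Finset E} (hQP : Q ⊆ P)
    (hQ : Q.card = 4) (v : E → ℝ) : ∃ f : V, ∀ x ∈ Q, ev f x = v x := by
  classical
  let L : V →ₗ[ℝ] (Q → ℝ) :=
    { toFun := fun f x => ev f x
      map_add' := by
        intro f g
        funext x
        exact ev_add f g x
      map_smul' := by
        intro t f
        funext x
        exact ev_smul t f x }
  have hinj : Function.Injective L := by
    rw [injective_iff_map_eq_zero]
    intro f hf
    by_contra hne
    have h3 := zeros_le hg hne hQP (fun x hx => congrFun hf ⟨x, hx⟩)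
    omega
  have hdim : Module.finrank ℝ V = Module.finrank ℝ (Q → ℝ) := by
    simp [hQ]
  have hsurj : Function.Surjective L :=
    (LinearMap.injective_iff_surjective_of_finrank_eq_finrank hdim).1 hinj
  obtain ⟨f, hf⟩ := hsurj (fun x => v x)
  exact ⟨f, fun x hx => congrFun hf ⟨x, hx⟩⟩

/-- Perturbation: the points of `P` on a plane can be moved to prescribed sides, the other
points staying where they are. -/
lemma perturb {P : Finset E} (hg : GeneralPosition P) (hP : P.card = 8) {f : V} (hf : f ≠ 0)
    (σ : E → Prop) :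
    ∃ f' : V, (∀ x ∈ P, ev f' x ≠ 0) ∧ (∀ x ∈ P, ev f x ≠ 0 → (0 < ev f' x ↔ 0 < ev f x)) ∧
      (∀ x ∈ P, ev f x = 0 → (0 < ev f' x ↔ σ x)) := by
  classical
  have hZ : (P.filter (fun x => ev f x = 0)).card ≤ 3 :=
    zeros_le hg hf (Finset.filter_subset _ _) (fun x hx => (Finset.mem_filter.1 hx).2)
  obtain ⟨Q, hZQ, hQP, hQ⟩ := Finset.exists_subsuperset_card_eq
    (Finset.filter_subset (fun x => ev f x = 0) P) (show _ ≤ 4 by omega) (by omega)
  obtain ⟨h, hh⟩ := interpolate hg hQP hQ (fun x => if σ x then 1 else -1)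
  have hev : ∀ᶠ δ in nhdsWithin (0 : ℝ) (Set.Ioi 0), ∀ x ∈ P,
      (0 < ev f x → 0 < ev f x + δ * ev h x) ∧ (ev f x < 0 → ev f x + δ * ev h x < 0) := by
    rw [Filter.eventually_all_finset]
    intro x _
    have hc : Filter.Tendsto (fun δ : ℝ => ev f x + δ * ev h x)
        (nhdsWithin (0 : ℝ) (Set.Ioi 0)) (nhds (ev f x)) := by
      have h0 : Continuous (fun δ : ℝ => ev f x + δ * ev h x) := by fun_prop
      have h1 := h0.tendsto 0
      simp only [zero_mul, add_zero] at h1
      exact h1.mono_left nhdsWithin_le_nhds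
    rcases lt_trichotomy (ev f x) 0 with hx | hx | hx
    · filter_upwards [hc.eventually_lt_const hx] with δ hδ
      exact ⟨fun hh => absurd hh (not_lt.2 hx.le), fun _ => hδ⟩
    · exact Filter.Eventually.of_forall (fun δ =>
        ⟨fun hh => absurd hh (by rw [hx]; exact lt_irrefl 0),
          fun hh => absurd hh (by rw [hx]; exact lt_irrefl 0)⟩)
    · filter_upwards [hc.eventually_const_lt hx] with δ hδ
      exact ⟨fun _ => hδ, fun hh => absurd hh (not_lt.2 hx.le)⟩
  obtain ⟨δ, hδ, hpos⟩ := (hev.and self_mem_nhdsWithin).exists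
  have hpos' : (0 : ℝ) < δ := hpos
  have hval : ∀ x, ev (f + δ • h) x = ev f x + δ * ev h x := by
    intro x
    rw [ev_add, ev_smul]
  have hzero : ∀ x ∈ P, ev f x = 0 → ev (f + δ • h) x = if σ x then δ else -δ := by
    intro x hx h0
    rw [hval, h0, hh x (hZQ (Finset.mem_filter.2 ⟨hx, h0⟩))]
    split_ifs <;> ring
  refine ⟨f + δ • h, ?_, ?_, ?_⟩
  · intro x hx
    rcases lt_trichotomy (ev f x) 0 with h0 | h0 | h0
    · rw [hval]; exact ((hδ x hx).2 h0).ne
    · rw [hzero x hx h0]
      split_ifs
      · exact hpos'.ne'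
      · linarith
    · rw [hval]; exact ((hδ x hx).1 h0).ne'
  · intro x hx h0
    rw [hval]
    constructor
    · intro h1
      by_contra h2
      have h3 : ev f x < 0 := lt_of_le_of_ne (not_lt.1 h2) h0
      exact absurd h1 (not_lt.2 ((hδ x hx).2 h3).le)
    · intro h1
      exact (hδ x hx).1 h1
  · intro x hx h0
    rw [hzero x hx h0]
    split_ifs with hs
    · exact ⟨fun _ => hs, fun _ => hpos'⟩
    · exact ⟨fun h1 => absurd h1 (by linarith), fun h1 => absurd h1 hs⟩

/-- Rotation about the line through `a` and `a'`: some plane through `a` and `a'` misses the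
`2m` points `b i` and has exactly `m` of them on its positive side. -/
lemma pencil {P : Finset E} (hg : GeneralPosition P) {a a' : E} (ha : a ∈ P) (ha' : a' ∈ P)
    (haa : a ≠ a') {m : ℕ} (hm : 1 ≤ m) (b : Fin (2 * m) → E) (hb : Function.Injective b)
    (hbP : ∀ i, b i ∈ P) (hba : ∀ i, b i ≠ a) (hba' : ∀ i, b i ≠ a') :
    ∃ f : V, f ≠ 0 ∧ ev f a = 0 ∧ ev f a' = 0 ∧ (∀ i, ev f (b i) ≠ 0) ∧
      (Finset.univ.filter (fun i => 0 < ev f (b i))).card = m := by
  classical
  set u : E := b ⟨0, by omega⟩ with hu
  set v : E := b ⟨1, by omega⟩ with hv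
  have huv : u ≠ v := by
    intro h
    have := hb h
    simp at this
  have hua : u ≠ a := hba _
  have hua' : u ≠ a' := hba' _
  have hva : v ≠ a := hba _
  have hva' : v ≠ a' := hba' _
  have hQ : ({a, a', u, v} : Finset E).card = 4 := by
    rw [Finset.card_insert_of_notMem, Finset.card_insert_of_notMem,
      Finset.card_insert_of_notMem, Finset.card_singleton]
    · simp [huv]
    · simp [hua'.symm, hva'.symm]
    · simp [haa, hua.symm, hva.symm]
  have hQP : ({a, a', u, v} : Finset E) ⊆ P := by
    intro x hx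
    simp only [Finset.mem_insert, Finset.mem_singleton] at hx
    rcases hx with rfl | rfl | rfl | rfl
    · exact ha
    · exact ha'
    · exact hbP _
    · exact hbP _
  obtain ⟨g1, hg1⟩ := interpolate hg hQP hQ (fun x => if x = u then 1 else 0)
  obtain ⟨h1, hh1⟩ := interpolate hg hQP hQ (fun x => if x = v then 1 else 0)
  have g1a : ev g1 a = 0 := by rw [hg1 a (by simp), if_neg hua.symm]
  have g1a' : ev g1 a' = 0 := by rw [hg1 a' (by simp), if_neg hua'.symm]
  have g1u : ev g1 u = 1 := by rw [hg1 u (by simp), if_pos rfl]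
  have g1v : ev g1 v = 0 := by rw [hg1 v (by simp), if_neg huv.symm]
  have h1a : ev h1 a = 0 := by rw [hh1 a (by simp), if_neg hva.symm]
  have h1a' : ev h1 a' = 0 := by rw [hh1 a' (by simp), if_neg hva'.symm]
  have h1u : ev h1 u = 0 := by rw [hh1 u (by simp), if_neg huv]
  have h1v : ev h1 v = 1 := by rw [hh1 v (by simp), if_pos rfl]
  -- a member of the pencil that is not trivial vanishes at most at one of the `b i`
  have key : ∀ p q : ℝ, (p ≠ 0 ∨ q ≠ 0) → ∀ i j, i ≠ j →
      ev (p • g1 + q • h1) (b i) = 0 → ev (p • g1 + q • h1) (b j) = 0 → False := by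
    intro p q hpq i j hij hi hj
    have hne : p • g1 + q • h1 ≠ 0 := by
      intro h0
      have e1 : ev (p • g1 + q • h1) u = 0 := by rw [h0, ev_zero]
      have e2 : ev (p • g1 + q • h1) v = 0 := by rw [h0, ev_zero]
      rw [ev_add, ev_smul, ev_smul] at e1 e2
      rw [g1u, h1u] at e1
      rw [g1v, h1v] at e2
      rcases hpq with hp | hq
      · exact hp (by linarith)
      · exact hq (by linarith)
    have hij' : b i ≠ b j := fun h => hij (hb h)
    have hc : ({a, a', b i, b j} : Finset E).card = 4 := by
      rw [Finset.card_insert_of_notMem, Finset.card_insert_of_notMem,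
        Finset.card_insert_of_notMem, Finset.card_singleton]
      · simp [hij']
      · simp [(hba' i).symm, (hba' j).symm]
      · simp [haa, (hba i).symm, (hba j).symm]
    have hsub : ({a, a', b i, b j} : Finset E) ⊆ P := by
      intro x hx
      simp only [Finset.mem_insert, Finset.mem_singleton] at hx
      rcases hx with rfl | rfl | rfl | rfl
      · exact ha
      · exact ha'
      · exact hbP _
      · exact hbP _
    have h3 := zeros_le hg hne hsub (by
      intro x hx
      simp only [Finset.mem_insert, Finset.mem_singleton] at hx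
      rcases hx with rfl | rfl | rfl | rfl
      · rw [ev_add, ev_smul, ev_smul, g1a, h1a]; ring
      · rw [ev_add, ev_smul, ev_smul, g1a', h1a']; ring
      · exact hi
      · exact hj)
    omega
  -- choose `g = g1 + τ h1` without zeros among the `b i`
  obtain ⟨τ, -, -, hτ⟩ := exists_between_avoid
    (Finset.univ.image (fun i => - ev g1 (b i) / ev h1 (b i))) (show (0 : ℝ) < 1 by norm_num)
  have hgi : ∀ i, ev g1 (b i) + τ * ev h1 (b i) ≠ 0 := by
    intro i h0
    by_cases hz : ev h1 (b i) = 0
    · rw [hz, mul_zero, add_zero] at h0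
      -- then `g1` vanishes at `b i`, and `h1` too
      by_cases hi : i = ⟨0, by omega⟩
      · have : ev g1 u = 0 := by rw [hu, ← hi]; exact h0
        rw [g1u] at this
        exact one_ne_zero this
      · refine key 0 1 (Or.inr one_ne_zero) i ⟨0, by omega⟩ hi ?_ ?_
        · rw [ev_add, ev_smul, ev_smul, hz]; ring
        · rw [ev_add, ev_smul, ev_smul, ← hu, h1u]; ring
    · apply hτ
      rw [Finset.mem_image]
      refine ⟨i, Finset.mem_univ _, ?_⟩
      rw [div_eq_iff hz]
      linarith
  set r : Fin (2 * m) → ℝ := fun i => ev h1 (b i) / (ev g1 (b i) + τ * ev h1 (b i)) with hr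
  have hrmul : ∀ i, r i * (ev g1 (b i) + τ * ev h1 (b i)) = ev h1 (b i) :=
    fun i => div_mul_cancel₀ _ (hgi i)
  have hrinj : Set.InjOn r (Finset.univ : Finset (Fin (2 * m))) := by
    intro i _ j _ hij
    by_contra hne
    have e1 : ev h1 (b i) = r i * (ev g1 (b i) + τ * ev h1 (b i)) := (hrmul i).symm
    have e2 : ev h1 (b j) = r i * (ev g1 (b j) + τ * ev h1 (b j)) := by
      rw [hij]; exact (hrmul j).symm
    refine key (-(r i)) (1 - r i * τ) ?_ i j hne ?_ ?_
    · by_contra hcon
      push Not at hcon
      have h0 : r i = 0 := by linarith [hcon.1]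
      have h2 := hcon.2
      rw [h0] at h2
      norm_num at h2
    · rw [ev_add, ev_smul, ev_smul]; linarith
    · rw [ev_add, ev_smul, ev_smul]; linarith
  have hbd : ∃ M : ℝ, ∀ i ∈ (Finset.univ : Finset (Fin (2 * m))), r i < M := by
    obtain ⟨M, hM⟩ := (Finset.univ.image r).exists_le
    refine ⟨M + 1, fun i _ => ?_⟩
    have := hM (r i) (Finset.mem_image_of_mem _ (Finset.mem_univ i))
    linarith
  obtain ⟨M, hM⟩ := hbd
  have hcard : ((Finset.univ : Finset (Fin (2 * m))).filter
      (fun i => 0 < ev g1 (b i) + τ * ev h1 (b i))).card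
      + ((Finset.univ : Finset (Fin (2 * m))).filter
      (fun i => ¬ 0 < ev g1 (b i) + τ * ev h1 (b i))).card = 2 * m := by
    rw [Finset.card_filter_add_card_filter_not]
    simp
  obtain ⟨t, _, _, ht, hcnt⟩ := rot ∅ r (fun i => 0 < ev g1 (b i) + τ * ev h1 (b i))
    Finset.univ hrinj m M hM (by omega)
  have hval : ∀ x, ev ((-t) • g1 + (1 - t * τ) • h1) x
      = ev h1 x - t * (ev g1 x + τ * ev h1 x) := by
    intro x
    rw [ev_add, ev_smul, ev_smul]
    ring
  have hval2 : ∀ i, ev ((-t) • g1 + (1 - t * τ) • h1) (b i)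
      = (ev g1 (b i) + τ * ev h1 (b i)) * (r i - t) := by
    intro i
    rw [hval, mul_sub, mul_comm (ev g1 (b i) + τ * ev h1 (b i)) (r i), hrmul i]
    ring
  refine ⟨(-t) • g1 + (1 - t * τ) • h1, ?_, ?_, ?_, ?_, ?_⟩
  · intro h0
    have e1 : ev ((-t) • g1 + (1 - t * τ) • h1) u = 0 := by rw [h0, ev_zero]
    have e2 : ev ((-t) • g1 + (1 - t * τ) • h1) v = 0 := by rw [h0, ev_zero]
    rw [hval, g1u, h1u] at e1
    rw [hval, g1v, h1v] at e2
    have : t = 0 := by linarith
    rw [this] at e2
    norm_num at e2
  · rw [hval, g1a, h1a]; ring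
  · rw [hval, g1a', h1a']; ring
  · intro i
    rw [hval2]
    exact mul_ne_zero (hgi i) (sub_ne_zero.2 (ht i (Finset.mem_univ _)))
  · refine Eq.trans ?_ hcnt
    congr 1
    apply Finset.filter_congr
    intro i _
    rw [hval2]
    constructor
    · intro h
      rcases lt_or_gt_of_ne (hgi i) with hneg | hpos
      · right
        refine ⟨not_lt.2 hneg.le, ?_⟩
        by_contra hcon
        push Not at hcon
        have : (ev g1 (b i) + τ * ev h1 (b i)) * (r i - t) ≤ 0 :=
          mul_nonpos_of_nonpos_of_nonneg hneg.le (by linarith)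
        linarith
      · left
        refine ⟨hpos, ?_⟩
        have := (mul_pos_iff_of_pos_left hpos).1 h
        linarith
    · rintro (⟨hpos, hlt⟩ | ⟨hneg, hlt⟩)
      · exact mul_pos hpos (by linarith)
      · have hneg' : ev g1 (b i) + τ * ev h1 (b i) < 0 :=
          lt_of_le_of_ne (not_lt.1 hneg) (hgi i)
        exact mul_pos_of_neg_of_neg hneg' (by linarith)

/-! ### Bisecting planes -/

/-- The sides (`true` for positive) of the four points `a i` with respect to `f`. -/
noncomputable def sides (f : V) (a : Fin 4 → E) : Fin 4 → Bool := fun i => decide (0 < ev f (a i))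

/-- Exactly two of the four entries are `true`. -/
def Balanced (s : Fin 4 → Bool) : Prop := (Finset.univ.filter (fun i => s i = true)).card = 2

instance (s : Fin 4 → Bool) : Decidable (Balanced s) := by unfold Balanced; infer_instance

lemma balanced_cases : ∀ s : Fin 4 → Bool, Balanced s →
    ∃ i k i' l : Fin 4, i ≠ k ∧ i ≠ i' ∧ i ≠ l ∧ k ≠ i' ∧ k ≠ l ∧ i' ≠ l ∧
      s i = s k ∧ s i' = s l := by
  decide +kernel

lemma balanced_of_pairs : ∀ (s : Fin 4 → Bool) (i k i' l : Fin 4), i ≠ k → i ≠ i' → i ≠ l →
    k ≠ i' → k ≠ l → i' ≠ l → s i ≠ s k → s i' ≠ s l → Balanced s := by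
  decide +kernel

lemma combine : ∀ s s' : Fin 4 → Bool, Balanced s → Balanced s' → s' ≠ s →
    s' ≠ (fun i => !(s i)) → ∀ i j, s i = s j → s' i = s' j → i = j := by
  decide +kernel

/-- For every pairing `{i, k}, {i', l}` of the four points `a`, some plane missing `P` bisects `b`
and separates `a i` from `a k` and `a i'` from `a l`. -/
lemma split_pairs {P : Finset E} (hg : GeneralPosition P) (hP : P.card = 8)
    {a b : Fin 4 → E} (ha : Function.Injective a) (hb : Function.Injective b)
    (haP : ∀ i, a i ∈ P) (hbP : ∀ i, b i ∈ P) (hab : ∀ i j, a i ≠ b j)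
    {i k i' l : Fin 4} (h1 : i ≠ k) (h2 : i ≠ i') (h3 : i ≠ l) (h4 : k ≠ i') (_h5 : k ≠ l)
    (h6 : i' ≠ l) :
    ∃ f : V, (∀ x ∈ P, ev f x ≠ 0) ∧ Balanced (sides f b) ∧ sides f a i ≠ sides f a k ∧
      sides f a i' ≠ sides f a l := by
  classical
  obtain ⟨f0, hf0, hi, hi', hbne, hcnt⟩ := pencil hg (haP i) (haP i') (fun h => h2 (ha h))
    (m := 2) (by norm_num) b hb hbP (fun j h => hab i j h.symm) (fun j h => hab i' j h.symm)
  obtain ⟨f, hfP, hf1, hf2⟩ := perturb hg hP hf0
    (fun x => (x = a i ∧ ¬ 0 < ev f0 (a k)) ∨ (x = a i' ∧ ¬ 0 < ev f0 (a l)))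
  have hki : a k ≠ a i := fun h => h1 (ha h).symm
  have hki' : a k ≠ a i' := fun h => h4 (ha h)
  have hli : a l ≠ a i := fun h => h3 (ha h).symm
  have hli' : a l ≠ a i' := fun h => h6 (ha h).symm
  have hii' : a i ≠ a i' := fun h => h2 (ha h)
  have hk : 0 < ev f (a k) ↔ 0 < ev f0 (a k) := by
    by_cases h0 : ev f0 (a k) = 0
    · rw [hf2 _ (haP k) h0, h0]
      simp [hki, hki']
    · exact hf1 _ (haP k) h0
  have hl : 0 < ev f (a l) ↔ 0 < ev f0 (a l) := by
    by_cases h0 : ev f0 (a l) = 0
    · rw [hf2 _ (haP l) h0, h0]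
      simp [hli, hli']
    · exact hf1 _ (haP l) h0
  have hia : 0 < ev f (a i) ↔ ¬ 0 < ev f0 (a k) := by
    rw [hf2 _ (haP i) hi]
    simp [hii']
  have hia' : 0 < ev f (a i') ↔ ¬ 0 < ev f0 (a l) := by
    rw [hf2 _ (haP i') hi']
    simp [hii'.symm]
  refine ⟨f, hfP, ?_, ?_, ?_⟩
  · have : (Finset.univ.filter (fun j => sides f b j = true)).card
        = (Finset.univ.filter (fun j => 0 < ev f0 (b j))).card := by
      congr 1
      apply Finset.filter_congr
      intro j _
      simp only [sides, decide_eq_true_eq]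
      exact hf1 _ (hbP j) (hbne j)
    unfold Balanced
    rw [this]
    exact hcnt
  · intro h
    have h' := decide_eq_decide.1 h
    rw [hia, hk] at h'
    by_cases hc : 0 < ev f0 (a k)
    · exact (h'.2 hc) hc
    · exact hc (h'.1 hc)
  · intro h
    have h' := decide_eq_decide.1 h
    rw [hia', hl] at h'
    by_cases hc : 0 < ev f0 (a l)
    · exact (h'.2 hc) hc
    · exact hc (h'.1 hc)

/-- The planes bisecting both `a` and `b` do not all induce the same pairing of `a`. -/
lemma other_pairing {P : Finset E} (hg : GeneralPosition P) (hP : P.card = 8)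
    {a b : Fin 4 → E} (ha : Function.Injective a) (hb : Function.Injective b)
    (haP : ∀ i, a i ∈ P) (hbP : ∀ i, b i ∈ P) (hab : ∀ i j, a i ≠ b j)
    (s : Fin 4 → Bool) (hs : Balanced s) :
    ∃ f : V, (∀ x ∈ P, ev f x ≠ 0) ∧ Balanced (sides f b) ∧ Balanced (sides f a) ∧
      sides f a ≠ s ∧ sides f a ≠ (fun i => !(s i)) := by
  obtain ⟨i, k, i', l, h1, h2, h3, h4, h5, h6, h7, h8⟩ := balanced_cases s hs
  obtain ⟨f, hf, hfb, e1, e2⟩ := split_pairs hg hP ha hb haP hbP hab h1 h2 h3 h4 h5 h6
  refine ⟨f, hf, hfb, balanced_of_pairs _ i k i' l h1 h2 h3 h4 h5 h6 e1 e2, ?_, ?_⟩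
  · intro h
    rw [h] at e1
    exact e1 h7
  · intro h
    rw [h] at e1
    exact e1 (by simp [h7])

/-- Two planes that cut both quadruples into singletons. -/
lemma two_planes {P : Finset E} (hg : GeneralPosition P) (hP : P.card = 8)
    {a b : Fin 4 → E} (ha : Function.Injective a) (hb : Function.Injective b)
    (haP : ∀ i, a i ∈ P) (hbP : ∀ i, b i ∈ P) (hab : ∀ i j, a i ≠ b j) :
    ∃ f g : V, (∀ x ∈ P, ev f x ≠ 0) ∧ (∀ x ∈ P, ev g x ≠ 0) ∧
      (∀ i j, sides f a i = sides f a j → sides g a i = sides g a j → i = j) ∧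
      (∀ i j, sides f b i = sides f b j → sides g b i = sides g b j → i = j) := by
  obtain ⟨f, hf, hfb, hfa, -, -⟩ := other_pairing hg hP ha hb haP hbP hab
    (fun i => decide (i = 0 ∨ i = 1)) (by decide)
  obtain ⟨g, hgP, hgb, hga, hg1, hg2⟩ := other_pairing hg hP ha hb haP hbP hab _ hfa
  by_cases hc : sides g b ≠ sides f b ∧ sides g b ≠ (fun i => !(sides f b i))
  · exact ⟨f, g, hf, hgP, combine _ _ hfa hga hg1 hg2, combine _ _ hfb hgb hc.1 hc.2⟩
  · obtain ⟨h, hhP, hha, hhb, hh1, hh2⟩ := other_pairing hg hP hb ha hbP haP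
      (fun i j => (hab j i).symm) _ hfb
    by_cases hd : sides h a ≠ sides f a ∧ sides h a ≠ (fun i => !(sides f a i))
    · exact ⟨f, h, hf, hhP, combine _ _ hfa hha hd.1 hd.2, combine _ _ hfb hhb hh1 hh2⟩
    · refine ⟨g, h, hgP, hhP, combine _ _ hga hha ?_ ?_, combine _ _ hgb hhb ?_ ?_⟩
      · intro e
        rw [not_and_or, not_not, not_not] at hd
        rcases hd with hd | hd
        · exact hg1 (e ▸ hd)
        · exact hg2 (e ▸ hd)
      · intro e
        rw [not_and_or, not_not, not_not] at hd
        rcases hd with hd | hd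
        · apply hg2
          funext i
          have h1 := congrFun e i
          rw [hd] at h1
          rw [h1]
          simp
        · apply hg1
          funext i
          have h1 := congrFun e i
          rw [hd] at h1
          simpa using h1.symm
      · intro e
        rw [not_and_or, not_not, not_not] at hc
        rcases hc with hc | hc
        · exact hh1 (e ▸ hc)
        · exact hh2 (e ▸ hc)
      · intro e
        rw [not_and_or, not_not, not_not] at hc
        rcases hc with hc | hc
        · apply hh2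
          rw [e, hc]
        · apply hh1
          rw [e, hc]
          funext i
          simp

/-- A plane with exactly four of the points on each side. -/
lemma halving {P : Finset E} (hg : GeneralPosition P) (hP : P.card = 8) :
    ∃ f : V, (∀ x ∈ P, ev f x ≠ 0) ∧ (P.filter (fun x => 0 < ev f x)).card = 4 := by
  classical
  set e : Fin 8 → E := fun i => ((P.equivFinOfCardEq hP).symm i : E) with he
  have heinj : Function.Injective e := by
    intro i j h
    exact (P.equivFinOfCardEq hP).symm.injective (Subtype.ext h)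
  have heP : ∀ i, e i ∈ P := fun i => ((P.equivFinOfCardEq hP).symm i).2
  have hesurj : ∀ x ∈ P, ∃ i, e i = x := by
    intro x hx
    refine ⟨P.equivFinOfCardEq hP ⟨x, hx⟩, ?_⟩
    simp [he]
  have hbinj : Function.Injective
      (fun i : Fin (2 * 3) => e (Fin.castSucc (Fin.castSucc i))) := by
    intro i j h
    have h1 := heinj h
    exact Fin.castSucc_injective _ (Fin.castSucc_injective _ h1)
  have hne1 : ∀ i : Fin 6, e (Fin.castSucc (Fin.castSucc i)) ≠ e (Fin.castSucc (Fin.last 6)) := by
    intro i h
    have h1 := Fin.castSucc_injective _ (heinj h)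
    exact (Fin.castSucc_lt_last i).ne h1
  have hne2 : ∀ i : Fin 6, e (Fin.castSucc (Fin.castSucc i)) ≠ e (Fin.last 7) := by
    intro i h
    exact (Fin.castSucc_lt_last _).ne (heinj h)
  have hne3 : e (Fin.castSucc (Fin.last 6)) ≠ e (Fin.last 7) := by
    intro h
    exact (Fin.castSucc_lt_last _).ne (heinj h)
  obtain ⟨f0, hf0, h6, h7, hbne, hcnt⟩ := pencil hg (heP (Fin.castSucc (Fin.last 6)))
    (heP (Fin.last 7)) hne3 (m := 3) (by norm_num)
    (fun i : Fin (2 * 3) => e (Fin.castSucc (Fin.castSucc i))) hbinj (fun i => heP _)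
    hne1 hne2
  obtain ⟨f, hfP, hf1, hf2⟩ := perturb hg hP hf0 (fun x => x = e (Fin.castSucc (Fin.last 6)))
  refine ⟨f, hfP, ?_⟩
  have himg : P.filter (fun x => 0 < ev f x)
      = ((Finset.univ : Finset (Fin 8)).filter (fun i => 0 < ev f (e i))).image e := by
    ext x
    simp only [Finset.mem_filter, Finset.mem_image, Finset.mem_univ, true_and]
    constructor
    · rintro ⟨hx, hpos⟩
      obtain ⟨i, rfl⟩ := hesurj x hx
      exact ⟨i, hpos, rfl⟩
    · rintro ⟨i, hpos, rfl⟩
      exact ⟨heP i, hpos⟩
  rw [himg, Finset.card_image_of_injective _ heinj, Finset.card_filter,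
    Fin.sum_univ_castSucc, Fin.sum_univ_castSucc]
  have hA : (∑ i : Fin 6, if 0 < ev f (e (Fin.castSucc (Fin.castSucc i))) then 1 else 0) = 3 := by
    rw [← hcnt, Finset.card_filter]
    apply Finset.sum_congr rfl
    intro i _
    have := hf1 _ (heP (Fin.castSucc (Fin.castSucc i))) (hbne i)
    simp only [this]
  have hB : 0 < ev f (e (Fin.castSucc (Fin.last 6))) := by
    rw [hf2 _ (heP _) h6]
  have hC : ¬ 0 < ev f (e (Fin.last 7)) := by
    rw [hf2 _ (heP _) h7]
    exact hne3.symm
  rw [hA, if_pos hB, if_neg hC]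

/-- Three functionals whose sign patterns on `P` are pairwise different. -/
lemma three_functionals {P : Finset E} (hg : GeneralPosition P) (hP : P.card = 8) :
    ∃ F : Fin 3 → V, (∀ i, ∀ x ∈ P, ev (F i) x ≠ 0) ∧
      ∀ x ∈ P, ∀ y ∈ P, (∀ i, (0 < ev (F i) x ↔ 0 < ev (F i) y)) → x = y := by
  classical
  obtain ⟨f1, h1P, h1⟩ := halving hg hP
  have h1' : (P.filter (fun x => ¬ 0 < ev f1 x)).card = 4 := by
    have := Finset.card_filter_add_card_filter_not (s := P) (fun x => 0 < ev f1 x)
    omega
  set A := P.filter (fun x => 0 < ev f1 x) with hA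
  set B := P.filter (fun x => ¬ 0 < ev f1 x) with hB
  set a : Fin 4 → E := fun i => ((A.equivFinOfCardEq h1).symm i : E) with ha
  set b : Fin 4 → E := fun i => ((B.equivFinOfCardEq h1').symm i : E) with hb
  have hainj : Function.Injective a := by
    intro i j h
    exact (A.equivFinOfCardEq h1).symm.injective (Subtype.ext h)
  have hbinj : Function.Injective b := by
    intro i j h
    exact (B.equivFinOfCardEq h1').symm.injective (Subtype.ext h)
  have haA : ∀ i, a i ∈ A := fun i => ((A.equivFinOfCardEq h1).symm i).2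
  have hbB : ∀ i, b i ∈ B := fun i => ((B.equivFinOfCardEq h1').symm i).2
  have hasurj : ∀ x ∈ A, ∃ i, a i = x := by
    intro x hx
    refine ⟨A.equivFinOfCardEq h1 ⟨x, hx⟩, ?_⟩
    simp [ha]
  have hbsurj : ∀ x ∈ B, ∃ i, b i = x := by
    intro x hx
    refine ⟨B.equivFinOfCardEq h1' ⟨x, hx⟩, ?_⟩
    simp [hb]
  have haP : ∀ i, a i ∈ P := fun i => (Finset.mem_filter.1 (haA i)).1
  have hbP : ∀ i, b i ∈ P := fun i => (Finset.mem_filter.1 (hbB i)).1
  have hab : ∀ i j, a i ≠ b j := by
    intro i j h
    have e1 := (Finset.mem_filter.1 (haA i)).2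
    have e2 := (Finset.mem_filter.1 (hbB j)).2
    rw [h] at e1
    exact e2 e1
  obtain ⟨f, g, hf, hgP, hfa, hfb⟩ := two_planes hg hP hainj hbinj haP hbP hab
  refine ⟨![f1, f, g], ?_, ?_⟩
  · intro i
    fin_cases i
    · exact h1P
    · exact hf
    · exact hgP
  · intro x hx y hy hxy
    have e0 : 0 < ev f1 x ↔ 0 < ev f1 y := hxy 0
    have e1 : 0 < ev f x ↔ 0 < ev f y := hxy 1
    have e2 : 0 < ev g x ↔ 0 < ev g y := hxy 2
    by_cases hxA : 0 < ev f1 x
    · obtain ⟨i, rfl⟩ := hasurj x (Finset.mem_filter.2 ⟨hx, hxA⟩)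
      obtain ⟨j, rfl⟩ := hasurj y (Finset.mem_filter.2 ⟨hy, e0.1 hxA⟩)
      rw [hfa i j (decide_eq_decide.2 e1) (decide_eq_decide.2 e2)]
    · obtain ⟨i, rfl⟩ := hbsurj x (Finset.mem_filter.2 ⟨hx, hxA⟩)
      obtain ⟨j, rfl⟩ := hbsurj y (Finset.mem_filter.2 ⟨hy, fun h => hxA (e0.2 h)⟩)
      rw [hfb i j (decide_eq_decide.2 e1) (decide_eq_decide.2 e2)]

/-! ### Compartments -/

/-- The points whose sides with respect to the functionals `F i` are given by `s`. -/
def region (F : Fin 3 → V) (s : Fin 3 → Bool) : Set E :=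
  {x | ∀ i, 0 < (if s i = true then 1 else -1 : ℝ) * ev (F i) x}

lemma ev_comb (f : V) (x y : E) {p q : ℝ} (h : p + q = 1) :
    ev f (p • x + q • y) = p * ev f x + q * ev f y := by
  simp only [ev, inner_add_right, real_inner_smul_right]
  have : f.2 = (p + q) * f.2 := by rw [h, one_mul]
  linarith [this]

lemma ev_continuous (f : V) : Continuous (ev f) := by
  unfold ev
  fun_prop

lemma region_convex (F : Fin 3 → V) (s : Fin 3 → Bool) : Convex ℝ (region F s) := by
  intro x hx y hy p q hp hq hpq i
  rw [ev_comb _ _ _ hpq]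
  have h1 := hx i
  have h2 := hy i
  set ε : ℝ := (if s i = true then 1 else -1 : ℝ)
  have h3 : ε * (p * ev (F i) x + q * ev (F i) y)
      = p * (ε * ev (F i) x) + q * (ε * ev (F i) y) := by ring
  rw [h3]
  rcases hp.eq_or_lt with h0 | h0
  · have hq1 : q = 1 := by linarith
    rw [← h0, hq1]
    linarith
  · have := mul_pos h0 h1
    have := mul_nonneg hq h2.le
    linarith

/-- The sign pattern of a point. -/
noncomputable def pat (F : Fin 3 → V) (x : E) : Fin 3 → Bool := fun i => decide (0 < ev (F i) x)

lemma mem_region_iff (F : Fin 3 → V) (s : Fin 3 → Bool) (x : E) :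
    x ∈ region F s ↔ (∀ i, ev (F i) x ≠ 0) ∧ pat F x = s := by
  constructor
  · intro h
    constructor
    · intro i h0
      have := h i
      rw [h0, mul_zero] at this
      exact lt_irrefl _ this
    · funext i
      have h1 := h i
      cases hs : s i
      · rw [hs] at h1
        simp only [Bool.false_eq_true, if_false] at h1
        have : ¬ 0 < ev (F i) x := by intro h2; linarith
        simp only [pat, decide_eq_false_iff_not]
        exact this
      · rw [hs] at h1
        simp only [if_true] at h1
        have : 0 < ev (F i) x := by linarith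
        simp only [pat, decide_eq_true_eq]
        exact this
  · rintro ⟨h0, rfl⟩ i
    by_cases h1 : 0 < ev (F i) x
    · simp [pat, h1]
    · have h2 : ev (F i) x < 0 := lt_of_le_of_ne (not_lt.1 h1) (h0 i)
      simp only [pat, h1, decide_false, Bool.false_eq_true, if_false]
      linarith

lemma component_eq (F : Fin 3 → V) {U : Set E} (hU : U = {x | ∀ i, ev (F i) x ≠ 0})
    {x : E} (hx : x ∈ U) : connectedComponentIn U x = region F (pat F x) := by
  have hx' : ∀ i, ev (F i) x ≠ 0 := by rw [hU] at hx; exact hx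
  have hxR : x ∈ region F (pat F x) := (mem_region_iff F _ x).2 ⟨hx', rfl⟩
  apply Set.Subset.antisymm
  · intro y hy
    have hyU : y ∈ U := connectedComponentIn_subset U x hy
    have hy' : ∀ i, ev (F i) y ≠ 0 := by rw [hU] at hyU; exact hyU
    refine (mem_region_iff F _ y).2 ⟨hy', ?_⟩
    have hpre : IsPreconnected (connectedComponentIn U x) := isPreconnected_connectedComponentIn
    have hxC : x ∈ connectedComponentIn U x := mem_connectedComponentIn hx
    have hno : ∀ i, ∀ z ∈ connectedComponentIn U x, ev (F i) z ≠ 0 := by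
      intro i z hz
      have hzU : z ∈ U := connectedComponentIn_subset U x hz
      rw [hU] at hzU
      exact hzU i
    funext i
    apply decide_eq_decide.2
    constructor
    · intro h1
      by_contra h2
      have h3 : ev (F i) x ≤ 0 := not_lt.1 h2
      obtain ⟨z, hz, hz0⟩ := hpre.intermediate_value hxC hy
        (ev_continuous (F i)).continuousOn ⟨h3, h1.le⟩
      exact hno i z hz hz0
    · intro h1
      by_contra h2
      have h3 : ev (F i) y ≤ 0 := not_lt.1 h2
      obtain ⟨z, hz, hz0⟩ := hpre.intermediate_value hy hxC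
        (ev_continuous (F i)).continuousOn ⟨h3, h1.le⟩
      exact hno i z hz hz0
  · refine (region_convex F _).isPreconnected.subset_connectedComponentIn hxR ?_
    intro y hy
    rw [hU]
    exact ((mem_region_iff F _ y).1 hy).1

/-- **MP_a0a64f_co, Q1 (affirmative).**  Every set `P` of eight points of `ℝ³` in general position
is separated by three planes: no point of `P` is on a plane, there are exactly eight compartments,
and each compartment contains exactly one point of `P`; equivalently (last clause) each of the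
eight sign patterns is that of exactly one point of `P`. -/
theorem result (P : Finset E) (h8 : P.card = 8) (hg : GeneralPosition P) :
    ∃ (n : Fin 3 → E) (c : Fin 3 → ℝ), (∀ i, n i ≠ 0) ∧
      (∀ i, ∀ p ∈ P, p ∉ plane (n i) (c i)) ∧
      (compartments (fun i => plane (n i) (c i))).ncard = 8 ∧
      (∀ C ∈ compartments (fun i => plane (n i) (c i)), ∃! p, p ∈ P ∧ p ∈ C) ∧
      (∀ s : Fin 3 → Bool, ∃! p, p ∈ P ∧
        ∀ i, (s i = true → c i < inner ℝ (n i) p) ∧ (s i = false → inner ℝ (n i) p < c i)) := by
  classical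
  obtain ⟨F, hF, hinj⟩ := three_functionals hg h8
  -- the sign pattern map on `P` is a bijection
  have hpinj : Function.Injective (fun x : P => pat F x) := by
    intro x y h
    apply Subtype.ext
    refine hinj x x.2 y y.2 (fun i => ?_)
    have := congrFun h i
    exact decide_eq_decide.1 this
  have hbij : Function.Bijective (fun x : P => pat F x) := by
    rw [Fintype.bijective_iff_injective_and_card]
    exact ⟨hpinj, by simp [h8]⟩
  have huniq : ∀ s : Fin 3 → Bool, ∃! p, p ∈ P ∧ pat F p = s := by
    intro s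
    obtain ⟨x, hx⟩ := hbij.2 s
    refine ⟨x, ⟨x.2, hx⟩, ?_⟩
    rintro y ⟨hy, hys⟩
    have : (⟨y, hy⟩ : P) = x := hpinj (by
      show pat F y = pat F x
      rw [hys]; exact hx.symm)
    exact congrArg Subtype.val this
  have hU : (⋃ i, plane (F i).1 (F i).2)ᶜ = {x | ∀ i, ev (F i) x ≠ 0} := by
    ext x
    simp only [Set.mem_compl_iff, Set.mem_iUnion, not_exists, plane, Set.mem_ofPred_eq, ev]
    exact forall_congr' (fun i => not_congr sub_eq_zero.symm)
  have hPU : ∀ p ∈ P, p ∈ (⋃ i, plane (F i).1 (F i).2)ᶜ := by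
    intro p hp
    rw [hU]
    exact fun i => hF i p hp
  have hcomp : compartments (fun i => plane (F i).1 (F i).2) = Set.range (region F) := by
    ext C
    constructor
    · rintro ⟨x, hx, rfl⟩
      exact ⟨pat F x, (component_eq F hU hx).symm⟩
    · rintro ⟨s, rfl⟩
      obtain ⟨p, ⟨hp, hps⟩, -⟩ := huniq s
      refine ⟨p, hPU p hp, ?_⟩
      show region F s = connectedComponentIn (⋃ i, plane (F i).1 (F i).2)ᶜ p
      rw [component_eq F hU (hPU p hp), hps]
  have hmemR : ∀ s, ∀ p ∈ P, p ∈ region F s ↔ pat F p = s := by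
    intro s p hp
    rw [mem_region_iff]
    exact ⟨fun h => h.2, fun h => ⟨fun i => hF i p hp, h⟩⟩
  have hRinj : Function.Injective (region F) := by
    intro s s' hss
    obtain ⟨p, ⟨hp, hps⟩, -⟩ := huniq s
    have h1 : p ∈ region F s := (hmemR s p hp).2 hps
    rw [hss] at h1
    rw [← hps, (hmemR s' p hp).1 h1]
  refine ⟨fun i => (F i).1, fun i => (F i).2, ?_, ?_, ?_, ?_, ?_⟩
  · intro i h0
    obtain ⟨p, ⟨_, hps⟩, -⟩ := huniq (fun _ => true)
    obtain ⟨q, ⟨_, hqs⟩, -⟩ := huniq (fun _ => false)
    have h1 : 0 < ev (F i) p := of_decide_eq_true (congrFun hps i)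
    have h2 : ¬ 0 < ev (F i) q := of_decide_eq_false (congrFun hqs i)
    simp only [ev, h0, inner_zero_left] at h1 h2
    exact h2 h1
  · intro i p hp hmem
    apply hF i p hp
    have hmem' : inner ℝ (F i).1 p = (F i).2 := hmem
    simp only [ev, hmem', sub_self]
  · rw [hcomp, ← Set.image_univ, Set.ncard_image_of_injective _ hRinj, Set.ncard_univ,
      Nat.card_eq_fintype_card]
    simp
  · intro C hC
    rw [hcomp] at hC
    obtain ⟨s, rfl⟩ := hC
    obtain ⟨p, ⟨hp, hps⟩, hu⟩ := huniq s
    refine ⟨p, ⟨hp, (hmemR s p hp).2 hps⟩, ?_⟩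
    rintro q ⟨hq, hqs⟩
    exact hu q ⟨hq, (hmemR s q hq).1 hqs⟩
  · intro s
    have hiff : ∀ p ∈ P, ((∀ i, (s i = true → (F i).2 < inner ℝ (F i).1 p) ∧
        (s i = false → inner ℝ (F i).1 p < (F i).2)) ↔ pat F p = s) := by
      intro p hp
      constructor
      · intro h
        funext i
        cases hs : s i
        · have h1 := (h i).2 hs
          refine decide_eq_false (fun h2 => ?_)
          simp only [ev] at h2
          linarith
        · have h1 := (h i).1 hs
          refine decide_eq_true ?_
          simp only [ev]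
          linarith
      · rintro rfl i
        constructor
        · intro h
          have h1 : 0 < ev (F i) p := of_decide_eq_true h
          simp only [ev] at h1
          linarith
        · intro h
          have h1 : ¬ 0 < ev (F i) p := of_decide_eq_false h
          have h2 : ev (F i) p < 0 := lt_of_le_of_ne (not_lt.1 h1) (hF i p hp)
          simp only [ev] at h2
          linarith
    obtain ⟨p, ⟨hp, hps⟩, hu⟩ := huniq s
    refine ⟨p, ⟨hp, (hiff p hp).2 hps⟩, ?_⟩
    rintro q ⟨hq, hqs⟩
    exact hu q ⟨hq, (hiff q hq).1 hqs⟩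

end Pool.Agent.Results.MP_a0a64f_co.ThreePlanes
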